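import Pool.Agent.Helper69.HA.Defs2

/-!
# Project HA, module HA-1: Boolean values of the names of branches
-/

set_option autoImplicit false
set_option linter.unusedSectionVars false

namespace Pool.Agent.Helper69.HA

open Set Pool.Agent.Helper33.HM

universe u

section Forcing

variable {I : Type u} [LinearOrder I] [WellFoundedLT I] {Ω : Type} [LinearOrder Ω]
  {e : Ω → ℕ → Ω → Prop} {code : I → Ω → Set (Cond I Ω)}

theorem Names_refl (i : I) (δ : Ω) (p : PC e code) :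
    p ∈ (eqN (bt i) (bt i) δ : RO (PC e code)) := mem_eqN.2 fun _ _ _ _ => Iff.rfl

theorem Names_symm {i j : I} {δ : Ω} {p : PC e code}
    (h : p ∈ (eqN (bt i) (bt j) δ : RO (PC e code))) :
    p ∈ (eqN (bt j) (bt i) δ : RO (PC e code)) :=
  mem_eqN.2 fun γ hγ q hq => (mem_eqN.1 h γ hγ q hq).symm

theorem Names_trans {i j k : I} {δ : Ω} {p : PC e code}
    (h : p ∈ (eqN (bt i) (bt j) δ : RO (PC e code)))
    (h' : p ∈ (eqN (bt j) (bt k) δ : RO (PC e code))) :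
    p ∈ (eqN (bt i) (bt k) δ : RO (PC e code)) :=
  mem_eqN.2 fun γ hγ q hq => (mem_eqN.1 h γ hγ q hq).trans (mem_eqN.1 h' γ hγ q hq)

theorem Names_level {i j : I} {γ δ : Ω} (hγ : γ ≤ δ) {p : PC e code}
    (h : p ∈ (eqN (bt i) (bt j) δ : RO (PC e code))) :
    p ∈ (eqN (bt i) (bt j) γ : RO (PC e code)) :=
  mem_eqN.2 fun ξ hξ q hq => mem_eqN.1 h ξ (hξ.trans_le hγ) q hq

theorem Dv_fun {i j j' : I} {δ : Ω} {v v' : Bool} {p : PC e code} (h : p ∈ Dv i δ j v)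
    (h' : p ∈ Dv i δ j' v') : j = j' ∧ v = v' := by
  obtain ⟨_, h2, h3, h4⟩ := mem_Dv.1 h
  obtain ⟨_, h2', h3', h4'⟩ := mem_Dv.1 h'
  refine ⟨?_, ?_⟩
  · rcases lt_trichotomy j j' with hj | hj | hj
    · exact (h3' j hj p le_rfl h2).elim
    · exact hj
    · exact (h3 j' hj p le_rfl h2').elim
  · cases v <;> cases v'
    · rfl
    · rw [if_pos rfl] at h4'
      rw [if_neg Bool.false_ne_true] at h4
      exact (h4 p le_rfl h4').elim
    · rw [if_pos rfl] at h4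
      rw [if_neg Bool.false_ne_true] at h4'
      exact (h4' p le_rfl h4).elim
    · rfl

theorem Names_val {i j : I} {γ δ : Ω} (hγ : γ < δ) {w : Bool} {p : PC e code}
    (h : p ∈ (eqN (bt i) (bt j) δ : RO (PC e code)))
    (hv : if w = true then p ∈ (bt i γ : RO (PC e code)) else
      ∀ q, q ≤ p → ¬ q ∈ (bt i γ : RO (PC e code))) :
    if w = true then p ∈ (bt j γ : RO (PC e code)) else
      ∀ q, q ≤ p → ¬ q ∈ (bt j γ : RO (PC e code)) := by
  cases w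
  · rw [if_neg Bool.false_ne_true] at hv ⊢
    exact fun q hq hq' => hv q hq ((mem_eqN.1 h γ hγ q hq).2 hq')
  · rw [if_pos rfl] at hv ⊢
    exact (mem_eqN.1 h γ hγ p le_rfl).1 hv

theorem Names_lower {i j : I} {δ : Ω} {p q : PC e code} (hq : q ≤ p)
    (h : p ∈ (eqN (bt i) (bt j) δ : RO (PC e code))) :
    q ∈ (eqN (bt i) (bt j) δ : RO (PC e code)) := RO.mem_lower hq h

theorem Dv_coh {i j k : I} {γ δ : Ω} {v w : Bool} {p : PC e code} (h : p ∈ Dv i δ j v)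
    (hγ : γ < δ) : p ∈ Dv i γ k w ↔ p ∈ Dv j γ k w := by
  obtain ⟨h1, h2, h3, _⟩ := mem_Dv.1 h
  have h2' := Names_level hγ.le h2
  constructor
  · intro hk
    obtain ⟨k1, k2, k3, k4⟩ := mem_Dv.1 hk
    refine mem_Dv.2 ⟨?_, Names_trans (Names_symm h2') k2, ?_, Names_val hγ h2 k4⟩
    · by_contra hjk
      exact k3 j (not_le.1 hjk) p le_rfl h2'
    · intro k' hk' q hq hqk
      exact k3 k' hk' q hq (Names_trans (Names_lower hq h2') hqk)
  · intro hk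
    obtain ⟨k1, k2, k3, k4⟩ := mem_Dv.1 hk
    refine mem_Dv.2 ⟨k1.trans h1, Names_trans h2' k2, ?_, Names_val hγ (Names_symm h2) k4⟩
    intro k' hk' q hq hqk
    exact k3 k' hk' q hq (Names_trans (Names_symm (Names_lower hq h2')) hqk)

theorem Dv_index {i i' j j' : I} {δ : Ω} {v v' : Bool} {p : PC e code}
    (h : p ∈ (eqN (bt i) (bt i') δ : RO (PC e code))) (h1 : p ∈ Dv i δ j v)
    (h2 : p ∈ Dv i' δ j' v') : j = j' := by
  obtain ⟨_, a2, a3, _⟩ := mem_Dv.1 h1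
  obtain ⟨_, b2, b3, _⟩ := mem_Dv.1 h2
  rcases lt_trichotomy j j' with hj | hj | hj
  · exact (b3 j hj p le_rfl (Names_trans (Names_symm h) a2)).elim
  · exact hj
  · exact (a3 j' hj p le_rfl (Names_trans h b2)).elim

/-- Different names which have the same node at `δ` and split at `δ` do not have the same node at
`δ' > δ`. -/
theorem Dv_split {i i' k k' k'' : I} {δ δ' : Ω} {v v' v'' : Bool} {p : PC e code} (h : δ < δ')
    (h1 : p ∈ Dv i δ k v) (h2 : p ∈ Dv i' δ k (!v)) (h3 : p ∈ Dv i δ' k' v')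
    (h4 : p ∈ Dv i' δ' k'' v'') : k' ≠ k'' := by
  rintro rfl
  obtain ⟨_, _, _, a4⟩ := mem_Dv.1 h1
  obtain ⟨_, _, _, b4⟩ := mem_Dv.1 h2
  obtain ⟨_, c2, _, _⟩ := mem_Dv.1 h3
  obtain ⟨_, d2, _, _⟩ := mem_Dv.1 h4
  have h5 : p ∈ (eqN (bt i) (bt i') δ' : RO (PC e code)) := Names_trans c2 (Names_symm d2)
  have h6 := Names_val h h5 a4
  cases v
  · rw [if_neg Bool.false_ne_true] at h6
    rw [Bool.not_false, if_pos rfl] at b4
    exact h6 p le_rfl b4
  · rw [if_pos rfl] at h6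
    rw [Bool.not_true, if_neg Bool.false_ne_true] at b4
    exact b4 p le_rfl h6

theorem Dv_dense (p : PC e code) (i : I) (δ : Ω) :
    ∃ q, q ≤ p ∧ (∀ k, i ≤ k → q.f k = p.f k) ∧ ∃ j v, q ∈ Dv i δ j v := by
  have hT : {j : I | j ≤ i ∧ ∃ q, q ≤ p ∧ q ∈ (eqN (bt i) (bt j) δ : RO (PC e code))}.Nonempty :=
    ⟨i, le_rfl, p, le_rfl, Names_refl i δ p⟩
  obtain ⟨j, ⟨hji, q1, hq1, hq1e⟩, hmin⟩ := WellFounded.has_min (wellFounded_lt (α := I)) _ hT
  have hex : ∃ q2, q2 ≤ q1 ∧ ∃ v : Bool, if v = true then q2 ∈ (bt i δ : RO (PC e code)) else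
      ∀ q, q ≤ q2 → ¬ q ∈ (bt i δ : RO (PC e code)) := by
    by_cases h : ∃ q2, q2 ≤ q1 ∧ q2 ∈ (bt i δ : RO (PC e code))
    · obtain ⟨q2, h1, h2⟩ := h
      exact ⟨q2, h1, true, by rw [if_pos rfl]; exact h2⟩
    · refine ⟨q1, le_rfl, false, ?_⟩
      rw [if_neg Bool.false_ne_true]
      exact fun q hq hq' => h ⟨q, hq, hq'⟩
  obtain ⟨q2, hq2, v, hv⟩ := hex
  have hD : q2 ∈ (Dv i δ j v : RO (PC e code)) := by
    refine mem_Dv.2 ⟨hji, Names_lower hq2 hq1e, ?_, hv⟩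
    intro k hk q hq hqk
    exact hmin k ⟨hk.le.trans hji, q, (hq.trans hq2).trans hq1, hqk⟩ hk
  refine ⟨PC.glue i (q2.res i) p, PC.glue_le_right (PC.res_mono (hq2.trans hq1) i), ?_, j, v, ?_⟩
  · intro k hk
    rw [PC.glue_f, if_neg (not_lt.2 hk)]
  · rw [← mem_res_iff (Dv_mem i δ j v), PC.glue_res (PC.res_lt _ _),
      mem_res_iff (Dv_mem i δ j v)]
    exact hD

end Forcing

end Pool.Agent.Helper69.HA
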